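import Pool.Agent.W312.T3.Stm

/-!
# T3-STR: the elimination tree of a perfect elimination order
-/

set_option autoImplicit false

namespace Pool.Agent.W120.T3

open Pool.Agent.W312.T3

section
variable {V : Type} [LinearOrder V] {G : SimpleGraph V}

theorem par_uniq {k j j' : V} (h : Par G k j) (h' : Par G k j') : j = j' :=
  le_antisymm (h.2 _ h'.1) (h'.2 _ h.1)

theorem par_lt {k j : V} (h : Par G k j) : k < j := h.1.1

theorem par_exists [Fintype V] {y : V} (h : (Q G y).Nonempty) : ∃ z, Par G y z := by
  obtain ⟨z, hz, hz'⟩ := Set.exists_min_image (Q G y) id (Set.toFinite _) h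
  exact ⟨z, hz, hz'⟩

theorem d_refl (j : V) : j ∈ D G j := Relation.ReflTransGen.refl

theorem d_trans {m k j : V} (h : m ∈ D G k) (h' : k ∈ D G j) : m ∈ D G j :=
  Relation.ReflTransGen.trans h h'

theorem d_le {m j : V} (h : m ∈ D G j) : m ≤ j := by
  have h1 : Relation.ReflTransGen (Par G) m j := h
  induction h1 with
  | refl => exact le_rfl
  | tail _ hb ih => exact (ih (by assumption)).trans (par_lt hb).le

theorem q_par (hG : PEO G) {m m' x : V} (h : Par G m m') (hx : x ∈ Q G m) : x ∈ K G m' := by
  by_cases e : x = m'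
  · exact Or.inl e
  · refine Or.inr ⟨lt_of_le_of_ne (h.2 _ hx) (Ne.symm e), ?_⟩
    exact hG m m' x h.1.1 hx.1 h.1.2 hx.2 (Ne.symm e)

theorem k_sub (hG : PEO G) {j m : V} (h : m ∈ D G j) : K G m ⊆ H G j := by
  have h1 : Relation.ReflTransGen (Par G) m j := h
  clear h
  induction h1 using Relation.ReflTransGen.head_induction_on with
  | refl =>
    rintro x (rfl | hx)
    · exact Or.inl (d_refl _)
    · exact Or.inr hx
  | head h' h ih =>
    rintro x (rfl | hx)
    · exact Or.inl (Relation.ReflTransGen.head h' h)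
    · exact ih (q_par hG h' hx)

theorem q_desc [Fintype V] (hG : PEO G) : ∀ y x : V, x ∈ Q G y → y ∈ D G x := by
  intro y
  induction y using (wellFounded_gt (α := V)).induction with
  | _ y ih =>
    intro x hx
    obtain ⟨z, hz⟩ := par_exists ⟨x, hx⟩
    rcases q_par hG hz hx with rfl | hx'
    · exact Relation.ReflTransGen.single hz
    · exact Relation.ReflTransGen.head hz (ih z (par_lt hz) x hx')

theorem d_disj {j k k' x : V} (h : Par G k j) (h' : Par G k' j) (hne : k ≠ k')
    (hx : x ∈ D G k) : x ∉ D G k' := by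
  intro hx'
  have key : ∀ a b : V, Par G a j → Par G b j → a ≠ b → ¬ Relation.ReflTransGen (Par G) a b := by
    intro a b ha hb hab hr
    rcases Relation.ReflTransGen.cases_head hr with e | ⟨c, hc, hcb⟩
    · exact hab e
    · have e := par_uniq hc ha
      subst e
      exact absurd (d_le hcb) (not_le.2 (par_lt hb))
  have hu : Relator.RightUnique (Par G) := fun _ _ _ h1 h2 => par_uniq h1 h2
  have hx1 : Relation.ReflTransGen (Par G) x k := hx
  have hx2 : Relation.ReflTransGen (Par G) x k' := hx'
  rcases Relation.ReflTransGen.total_of_right_unique hu hx1 hx2 with h1 | h1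
  · exact key k k' h h' hne h1
  · exact key k' k h' h hne.symm h1

end

theorem str : S_STR := by
  intro V _ _ G hG
  refine ⟨fun j m h => k_sub hG h, ?_, fun j k k' x => d_disj, ?_, ?_, ?_, fun j x => d_le, ?_⟩
  · intro j x y hx hxy
    rcases lt_trichotomy x y with h | h | h
    · exact k_sub hG hx (Or.inr ⟨h, hxy⟩)
    · exact absurd h hxy.ne
    · exact Or.inl (d_trans (q_desc hG y x ⟨h, hxy.symm⟩) hx)
  · intro j k x hk hx hx'
    have h1 : x < j := lt_of_le_of_lt (d_le hx) (par_lt hk)
    rcases hx' with e | e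
    · exact absurd e h1.ne
    · exact absurd e.1 (not_lt.2 h1.le)
  · intro j m hm
    rcases Relation.ReflTransGen.cases_tail hm with e | ⟨c, hc, hcj⟩
    · exact Or.inl e.symm
    · exact Or.inr ⟨c, hcj, hc⟩
  · intro j k hk
    have hkj : k ∈ D G j := Relation.ReflTransGen.single hk
    refine ⟨fun x hx => d_trans hx hkj, ?_, fun x hx => q_par hG hk hx⟩
    rintro x (hx | hx)
    · exact Or.inl (d_trans hx hkj)
    · exact k_sub hG hkj (Or.inr hx)
  · intro m x hx y hy hxy
    rcases hx with rfl | hx <;> rcases hy with rfl | hy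
    · exact absurd rfl hxy
    · exact hy.2
    · exact hx.2.symm
    · exact hG m x y hx.1 hy.1 hx.2 hy.2 hxy

end Pool.Agent.W120.T3
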