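import Pool.Agent.W120.T3.STR
import Pool.Agent.H673R2.TsTree

/-!
# T3-TOT: from a certificate to a tree 3-spanner
-/

set_option autoImplicit false

open Classical

namespace Pool.Agent.W120.T3

open Pool.Agent.W312.T3 Pool.Agent.H673R2.Ts

section prof
variable {V : Type} [LinearOrder V] {p q : V} {s : Set V}

theorem side_cases (x : V) : side p q s x = p ∨ side p q s x = q := by
  unfold side
  split_ifs
  · exact Or.inr rfl
  · exact Or.inl rfl

theorem side_p (hp : p ∉ s) : side p q s p = p := by
  unfold side; rw [if_neg hp]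

theorem side_q (hq : q ∈ s) : side p q s q = q := by
  unfold side; rw [if_pos hq]

theorem side_side (hq : q ∈ s) (hp : p ∉ s) (x : V) :
    side p q s (side p q s x) = side p q s x := by
  rcases side_cases (p := p) (q := q) (s := s) x with h | h <;> rw [h]
  · exact side_p hp
  · exact side_q hq

theorem gg_of_ne {x : V} (h : x ≠ side p q s x) (y : V) : gg p q s x y = side p q s x := by
  unfold gg
  rw [if_pos h]

theorem gg_of_eq {x : V} (h : x = side p q s x) (y : V) :
    gg p q s x y = if side p q s y = x then y else side p q s y := by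
  unfold gg
  rw [if_neg (not_not.2 h)]

/-- The possible shapes of the path from `x` to `y`. -/
theorem gg_shape (hq : q ∈ s) (hp : p ∉ s) {x y : V} (hxy : x ≠ y) :
    (gg p q s x y = y ∧ gg p q s y x = x) ∨
    (gg p q s x y = gg p q s y x ∧ gg p q s x y ≠ y ∧ gg p q s y x ≠ x) ∨
    (gg p q s x y = side p q s x ∧ gg p q s y x = side p q s y ∧
      gg p q s x y ≠ gg p q s y x ∧ gg p q s x y ≠ y ∧ gg p q s y x ≠ x) := by
  by_cases hx : x = side p q s x <;> by_cases hy : y = side p q s y
  · left
    rw [gg_of_eq hx, gg_of_eq hy, if_neg (fun h => hxy (by rw [← h, ← hy])),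
      if_neg (fun h => hxy (by rw [← h, ← hx]))]
    exact ⟨hy.symm, hx.symm⟩
  · by_cases h : side p q s y = x
    · left
      rw [gg_of_eq hx, gg_of_ne hy, if_pos h]
      exact ⟨rfl, h⟩
    · right; left
      rw [gg_of_eq hx, gg_of_ne hy, if_neg h]
      exact ⟨rfl, fun e => hy e.symm, h⟩
  · by_cases h : side p q s x = y
    · left
      rw [gg_of_ne hx, gg_of_eq hy, if_pos h]
      exact ⟨h, rfl⟩
    · right; left
      rw [gg_of_ne hx, gg_of_eq hy, if_neg h]
      exact ⟨rfl, h, fun e => hx e.symm⟩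
  · rw [gg_of_ne hx, gg_of_ne hy]
    have h1 : side p q s x ≠ y := fun h => hy (by
      have := side_side hq hp x
      rw [h] at this
      exact this.symm)
    have h2 : side p q s y ≠ x := fun h => hx (by
      have := side_side hq hp y
      rw [h] at this
      exact this.symm)
    by_cases h : side p q s x = side p q s y
    · exact Or.inr (Or.inl ⟨h, h1, h2⟩)
    · exact Or.inr (Or.inr ⟨rfl, rfl, h, h1, h2⟩)

theorem adj_gg {G : SimpleGraph V} {f : V → V → V} {S : Set V} (h : IsProf G f S p q s) {x y : V}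
    (hx : x ∈ S) (hy : y ∈ S) (hxy : G.Adj x y) : G.Adj x (f x y) := by
  obtain ⟨hpq, hq, hp, ha, hf⟩ := h
  rw [hf x hx y hy hxy.ne]
  by_cases e : x = side p q s x
  · rw [gg_of_eq e]
    split_ifs with h1
    · exact hxy
    · rcases side_cases (p := p) (q := q) (s := s) x with h2 | h2 <;>
        rcases side_cases (p := p) (q := q) (s := s) y with h3 | h3
      · exact absurd (h3.trans (h2.symm.trans e.symm)) h1
      · rw [h3, e, h2]; exact hpq
      · rw [h3, e, h2]; exact hpq.symm
      · exact absurd (h3.trans (h2.symm.trans e.symm)) h1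
  · rw [gg_of_ne e]
    exact ha x hx e

/-- The weight of a pair. -/
noncomputable def wt (e : Sym2 V) (a b : V) : ZMod 2 := if s(a, b) = e then 1 else 0

theorem wt_comm (e : Sym2 V) (a b : V) : wt e a b = wt e b a := by
  unfold wt
  rw [Sym2.eq_swap]

theorem wt_self {e : Sym2 V} (he : ¬ e.IsDiag) (a : V) : wt e a a = 0 := by
  unfold wt
  rw [if_neg]
  rintro rfl
  exact he (by simp)

/-- The number of times the path from `x` to `y` uses `e`. -/
noncomputable def phi (f : V → V → V) (e : Sym2 V) (x y : V) : ZMod 2 :=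
  wt e x (f x y) + wt e (f x y) (f y x) + wt e (f y x) y

theorem two_zero : (2 : ZMod 2) = 0 := rfl

theorem phi_bag {G : SimpleGraph V} {f : V → V → V} {S : Set V} (h : IsProf G f S p q s)
    {e : Sym2 V} (he : ¬ e.IsDiag) {x y : V} (hx : x ∈ S) (hy : y ∈ S) (hxy : x ≠ y) :
    phi f e x y = (wt e x (side p q s x) + wt e (side p q s x) p) +
      (wt e y (side p q s y) + wt e (side p q s y) p) := by
  obtain ⟨hpq, hq, hp, ha, hf⟩ := h
  have h1 : wt e (side p q s x) (side p q s y) = wt e (side p q s x) p + wt e (side p q s y) p := by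
    rcases side_cases (p := p) (q := q) (s := s) x with h2 | h2 <;>
      rcases side_cases (p := p) (q := q) (s := s) y with h3 | h3 <;> rw [h2, h3]
    · rw [wt_self he]; rfl
    · rw [wt_self he, wt_comm e p q, zero_add]
    · rw [wt_self he, add_zero]
    · rw [wt_self he]
      linear_combination (-wt e q p) * two_zero
  have h2 : phi f e x y = wt e x (side p q s x) + wt e (side p q s x) (side p q s y) +
      wt e (side p q s y) y := by
    unfold phi
    rw [hf x hx y hy hxy, hf y hy x hx hxy.symm]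
    by_cases hx' : x = side p q s x <;> by_cases hy' : y = side p q s y
    · have e1 : ¬ side p q s y = x := fun h => hxy (by rw [← h, ← hy'])
      have e2 : ¬ side p q s x = y := fun h => hxy (by rw [← h, ← hx'])
      rw [gg_of_eq hx', gg_of_eq hy', if_neg e1, if_neg e2, ← hx', ← hy', wt_self he, wt_self he,
        wt_comm e y x]
      linear_combination (wt e x y) * two_zero
    · by_cases h : side p q s y = x
      · rw [gg_of_eq hx', gg_of_ne hy', if_pos h, h, ← hx', wt_self he, wt_comm e y x]
        linear_combination (wt e x y) * two_zero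
      · rw [gg_of_eq hx', gg_of_ne hy', if_neg h, ← hx', wt_self he, wt_self he]
        ring
    · by_cases h : side p q s x = y
      · rw [gg_of_ne hx', gg_of_eq hy', if_pos h, h, ← hy', wt_self he, wt_comm e y x]
        linear_combination (wt e x y) * two_zero
      · rw [gg_of_ne hx', gg_of_eq hy', if_neg h, ← hy', wt_self he, wt_self he]
        ring
    · rw [gg_of_ne hx', gg_of_ne hy']
  rw [h2, h1, wt_comm e (side p q s y) y]
  ring

end prof

theorem exists_h {V : Type} [LinearOrder V] [Fintype V] {G : SimpleGraph V} (hG : PEO G)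
    (φ : V → V → ZMod 2)
    (hφ : ∀ m x y z, x ∈ K G m → y ∈ K G m → z ∈ K G m → x ≠ y → y ≠ z → x ≠ z →
      φ x y + φ y z = φ x z) :
    ∃ h : V → ZMod 2, ∀ v x, x ∈ Q G v → φ v x = h v + h x := by
  let F : (v : V) → ((y : V) → y > v → ZMod 2) → ZMod 2 := fun v ih =>
    if hv : ∃ u, Par G v u then φ v hv.choose + ih hv.choose (par_lt hv.choose_spec) else 0
  let h : V → ZMod 2 := (wellFounded_gt (α := V)).fix F
  have hh : ∀ v u, Par G v u → h v = φ v u + h u := by
    intro v u hu
    have h1 : h v = F v (fun y _ => h y) := (wellFounded_gt (α := V)).fix_eq F v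
    have hv : ∃ u, Par G v u := ⟨u, hu⟩
    have h2 : hv.choose = u := par_uniq hv.choose_spec hu
    rw [h1]
    simp only [F]
    rw [dif_pos hv, h2]
  refine ⟨h, ?_⟩
  intro v
  induction v using (wellFounded_gt (α := V)).induction with
  | _ v ih =>
    intro x hx
    obtain ⟨u, hu⟩ := par_exists ⟨x, hx⟩
    rw [hh v u hu]
    rcases q_par hG hu hx with rfl | hx'
    · linear_combination (-h x) * two_zero
    · have h1 := ih u (par_lt hu) x hx'
      have h2 := hφ v v u x (Or.inl rfl) (Or.inr hu.1) (Or.inr hx) (par_lt hu).ne hx'.1.ne hx.1.ne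
      rw [← h2, h1]
      linear_combination (-h u) * two_zero + (h u) * two_zero

theorem tot : S_TOT := by
  intro V _ _ G hG hconn f hprof hE
  have hbag : ∀ x y, G.Adj x y → ∃ m, x ∈ K G m ∧ y ∈ K G m := by
    intro x y h
    rcases lt_trichotomy x y with h1 | h1 | h1
    · exact ⟨x, Or.inl rfl, Or.inr ⟨h1, h⟩⟩
    · exact absurd h1 h.ne
    · exact ⟨y, Or.inr ⟨h1, h.symm⟩, Or.inl rfl⟩
  have hE1 : ∀ x y, G.Adj x y → f x (f x y) = f x y ∧ f (f x y) x = x := fun x y h =>
    hE.1 x trivial y trivial h trivial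
  have hE2 : ∀ x y, G.Adj x y → f x y ≠ y → f x y ≠ f y x → f (f x y) (f y x) = f y x :=
    fun x y h h1 h2 => hE.2 x trivial y trivial h h1 h2 trivial trivial
  have hadj : ∀ x y, G.Adj x y → G.Adj x (f x y) := by
    intro x y h
    obtain ⟨m, hx, hy⟩ := hbag x y h
    obtain ⟨p, q, s, hp⟩ := hprof m
    exact adj_gg hp hx hy h
  have hshape : ∀ x y, G.Adj x y → (f x y = y ∧ f y x = x) ∨
      (f x y = f y x ∧ f x y ≠ y ∧ f y x ≠ x) ∨
      (G.Adj (f x y) (f y x) ∧ f x y ≠ f y x ∧ f x y ≠ y ∧ f y x ≠ x) := by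
    intro x y h
    obtain ⟨m, hx, hy⟩ := hbag x y h
    obtain ⟨p, q, s, hpq, hq, hp, ha, hf⟩ := hprof m
    rw [hf x hx y hy h.ne, hf y hy x hx h.ne.symm]
    rcases gg_shape hq hp h.ne with h1 | h1 | ⟨h1, h2, h3, h4, h5⟩
    · exact Or.inl h1
    · exact Or.inr (Or.inl h1)
    · refine Or.inr (Or.inr ⟨?_, h3, h4, h5⟩)
      rw [h1, h2] at h3 ⊢
      rcases side_cases (p := p) (q := q) (s := s) x with h6 | h6 <;>
        rcases side_cases (p := p) (q := q) (s := s) y with h7 | h7
      · rw [h6, h7] at h3; exact absurd rfl h3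
      · rw [h6, h7]; exact hpq
      · rw [h6, h7]; exact hpq.symm
      · rw [h6, h7] at h3; exact absurd rfl h3
  have hsymm : ∀ x y, G.Adj x y → f x y = y → f y x = x := by
    intro x y h h1
    rcases hshape x y h with h2 | h2 | h2
    · exact h2.2
    · exact absurd h1 h2.2.1
    · exact absurd h1 h2.2.2.1
  let T : SimpleGraph V :=
    { Adj := fun x y => G.Adj x y ∧ f x y = y
      symm := ⟨fun x y h => ⟨h.1.symm, hsymm x y h.1 h.2⟩⟩
      loopless := ⟨fun x h => h.1.ne rfl⟩ }
  have hTle : T ≤ G := fun x y h => h.1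
  have hTc : ∀ x y, G.Adj x y → T.Adj x (f x y) := fun x y h => ⟨hadj x y h, (hE1 x y h).1⟩
  -- walks of length at most three
  have hwalk : ∀ x y, G.Adj x y → ∃ w : T.Walk x y, w.length ≤ 3 := by
    intro x y h
    have h1 := hTc x y h
    have h2 := (hTc y x h.symm).symm
    rcases hshape x y h with h3 | h3 | h3
    · rw [h3.1] at h1
      exact ⟨.cons h1 .nil, by simp⟩
    · rw [← h3.1] at h2
      exact ⟨.cons h1 (.cons h2 .nil), by simp⟩
    · have h4 : T.Adj (f x y) (f y x) := ⟨h3.1, hE2 x y h h3.2.2.1 h3.2.1⟩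
      exact ⟨.cons h1 (.cons h4 (.cons h2 .nil)), by simp⟩
  have hdist : ∀ x y, G.Adj x y → T.dist x y ≤ 3 := by
    intro x y h
    obtain ⟨w, hw⟩ := hwalk x y h
    exact (SimpleGraph.dist_le w).trans hw
  have hTconn : T.Connected := by
    haveI := hconn.nonempty
    refine SimpleGraph.Connected.mk ?_
    intro x y
    obtain ⟨w⟩ := hconn.preconnected x y
    induction w with
    | nil => exact SimpleGraph.Reachable.refl _
    | cons h _ ih =>
      obtain ⟨w, _⟩ := hwalk _ _ h
      exact SimpleGraph.Reachable.trans ⟨w⟩ ih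
  refine ⟨T, hTle, ⟨hTconn, ?_⟩, fun x y => stretch_of_adj hconn hTconn hdist x y⟩
  rw [SimpleGraph.isAcyclic_iff_forall_adj_isBridge]
  intro c d hcd
  rw [SimpleGraph.isBridge_iff]
  intro hreach
  have hdiag : ¬ (s(c, d) : Sym2 V).IsDiag := by
    rw [Sym2.mk_isDiag_iff]
    exact hcd.1.ne
  obtain ⟨h, hh⟩ := exists_h hG (phi f s(c, d)) (by
    intro m x y z hx hy hz hxy hyz hxz
    obtain ⟨p, q, s, hp⟩ := hprof m
    rw [phi_bag hp hdiag hx hy hxy, phi_bag hp hdiag hy hz hyz, phi_bag hp hdiag hx hz hxz]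
    linear_combination (wt s(c, d) y (side p q s y) + wt s(c, d) (side p q s y) p) * two_zero)
  have hphi : ∀ x y, T.Adj x y → phi f s(c, d) x y = wt s(c, d) x y := by
    intro x y hxy
    unfold phi
    rw [hxy.2, hsymm x y hxy.1 hxy.2, wt_comm _ y x]
    linear_combination (wt s(c, d) x y) * two_zero
  have hT : ∀ x y, T.Adj x y → h x + h y = wt s(c, d) x y := by
    intro x y hxy
    rcases lt_trichotomy x y with h1 | h1 | h1
    · rw [← hphi x y hxy, hh x y ⟨h1, hxy.1⟩]
    · exact absurd h1 hxy.1.ne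
    · rw [wt_comm, ← hphi y x hxy.symm, hh y x ⟨h1, hxy.1.symm⟩, add_comm]
  have hconst : ∀ x y, (T.deleteEdges {s(c, d)}).Reachable x y → h x = h y := by
    rintro x y ⟨w⟩
    induction w with
    | nil => rfl
    | @cons a b _ hab _ ih =>
      rw [← ih]
      rw [SimpleGraph.deleteEdges_adj] at hab
      have h1 := hT _ _ hab.1
      unfold wt at h1
      rw [if_neg (fun e => hab.2 (by rw [e]; rfl))] at h1
      linear_combination h1 - (h b) * two_zero
  have h1 := hT c d hcd
  rw [hconst c d hreach] at h1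
  unfold wt at h1
  rw [if_pos rfl] at h1
  have h2 : (1 : ZMod 2) = 0 := by linear_combination -h1 + (h d) * two_zero
  exact one_ne_zero h2

end Pool.Agent.W120.T3
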